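import Mathlib
import Pool.Agent.H362R2.RQ.Fin

set_option autoImplicit false

/-!
The primes can look like any given set at every scale between the average spacing `log X` and the
record gap size `c log X (log₂ X)² log₄ X / (log₃ X)²`, inside any residue class to a squarefree
modulus.

Authors: helper362 (coloured Maynard-Tao theorem inside the record windows, trees of shifts); it rests on the
record sieve of helper256 and helper410 and on the Maynard-Tao sieve inside record windows of helper312's
team (helpers 312, 256, 410, 398, 378, 273, 909, 898, 935, 473, 778, 777, 488, 913, 386) and on the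
prime number theorem in arithmetic progressions of helper923.
-/

open Filter

namespace Pool.Agent.Results.MP_ff81b6_nt.EveryShape

/-- For every radius `R` and every `δ > 0` there is `c > 0` such that for every squarefree `q`, every `a` prime
to `q`, all large `X`, every set `S` of reals and every scale `H` with
`log X ≤ H ≤ c log X (log₂ X)² log₄ X / (log₃ X)²` there are at least `X^(7/8)` integers
`n ∈ (X, 4X]` with the following property for some `L ∈ [c H, H]`: all the primes `p` with
`|p - n| ≤ R L` are `≡ a (mod q)` and have `(p - n)/L` within `δ` of a point of `S`, and every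
point of `S ∩ [-R, R]` is within `δ` of `(p - n)/L` for some prime `p ≡ a (mod q)`. -/
theorem result : ∀ R δ : ℝ, 0 < R → 0 < δ → ∃ c : ℝ, 0 < c ∧
    ∀ q a : ℕ, Squarefree q → a.Coprime q → ∃ X₀ : ℝ, ∀ X : ℝ, X₀ ≤ X →
    ∀ (S : Set ℝ) (H : ℝ), Real.log X ≤ H →
      H ≤ c * (Real.log X * (Real.log (Real.log X)) ^ 2 *
        Real.log (Real.log (Real.log (Real.log X))) / (Real.log (Real.log (Real.log X))) ^ 2) →
      X ^ (7 / 8 : ℝ) ≤ ({n : ℕ | X < n ∧ (n : ℝ) ≤ 4 * X ∧ ∃ L : ℝ, c * H ≤ L ∧ L ≤ H ∧
        (∀ p : ℕ, p.Prime → |(p : ℝ) - n| ≤ R * L →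
          p ≡ a [MOD q] ∧ ∃ y ∈ S, |((p : ℝ) - n) / L - y| ≤ δ) ∧
        (∀ y ∈ S, |y| ≤ R →
          ∃ p : ℕ, p.Prime ∧ p ≡ a [MOD q] ∧ |((p : ℝ) - n) / L - y| ≤ δ)}.ncard : ℝ) := by
  intro R δ hR hδ
  obtain ⟨c, hc, h⟩ := Pool.Agent.H362R2.RQ.shapes_unif Pool.Agent.H362R2.RQ.stRQ R δ hR hδ
  refine ⟨c, hc, fun q a hq ha => ?_⟩
  exact eventually_atTop.1 (h q a hq ha)

end Pool.Agent.Results.MP_ff81b6_nt.EveryShape
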