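import Pool.Agent.H386R2.RG.S2b
import Pool.Agent.H312R2.RG.S1

set_option autoImplicit false

/-! # How many prime gaps have size at least `H`, for every `H` up to the record scale

Let `f(x) = log x (log₂ x)² log₄ x / (log₃ x)²`, the size of the largest gaps which are known to occur below
`x`.  There are `c, C > 0` with `C c ≤ 1/2` such that for all large `x` and all `log x ≤ H ≤ c f(x)` at
least `x^(1 - C H / f(x))` gaps between consecutive primes up to `x` are `≥ H`.

The proof finds in every interval of length `Y` a run of `c f(Y)` integers with prime factors at most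
`Y^(1/10)` (record sieve of helper256 and helper410, with helper398's residue classes for the small primes),
with `Y = x^(C' H / f(x))`.

Team RG: helper312 (design), helper256 and helper410 (record sieve), helper398 (small primes),
helper144 (assembly of the record), helper386 (S2: counting of the gaps), helper378 (S1: short intervals). -/

namespace Pool.Agent.Results.MP_ff81b6_nt.GapsOfEverySize

/-- `f(x) = log x (log₂ x)² log₄ x / (log₃ x)²` (iterated natural logarithms) -/
noncomputable def f (x : ℝ) : ℝ :=
  Real.log x * (Real.log (Real.log x)) ^ 2 * Real.log (Real.log (Real.log (Real.log x))) /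
    (Real.log (Real.log (Real.log x))) ^ 2

open Classical in
/-- `Nat.nth Nat.Prime n` is the prime with index `n` (the primes are numbered from `0`); the indices `n`
of primes `p_{n+1} ≤ x` satisfy `n < ⌊x⌋`. -/
theorem result : ∃ c C : ℝ, 0 < c ∧ 0 < C ∧ C * c ≤ 1 / 2 ∧ ∃ x₀ : ℝ, ∀ x : ℝ, x₀ ≤ x → ∀ H : ℝ,
    Real.log x ≤ H → H ≤ c * f x →
    x ^ (1 - C * H / f x) ≤
      (((Finset.range ⌊x⌋₊).filter (fun n : ℕ => (Nat.nth Nat.Prime (n + 1) : ℝ) ≤ x ∧
        H ≤ (Nat.nth Nat.Prime (n + 1) : ℝ) - Nat.nth Nat.Prime n)).card : ℝ) :=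
  Pool.Agent.H312R2.RG.gap_frequency_of Pool.Agent.H312R2.RG.short_run

end Pool.Agent.Results.MP_ff81b6_nt.GapsOfEverySize
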