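import Mathlib
import Pool.Agent.H318R2.Cr.ResA

set_option autoImplicit false

namespace Pool.Agent.Results.MP_ff81b6_nt.SievedModelAboveOne

open Filter Topology MeasureTheory ProbabilityTheory Pool.Agent.H318R2.Cr

/-- In the random model for the primes which first sieves by the primes up to a level `z` (a
function of the dyadic block), the Cramer constant is almost surely at least `1 + δ(θ)` as soon as
the level exceeds `(log x) ^ θ` infinitely often, for every fixed `θ > 0`; the level may be as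
large as `x ^ o(1)`. -/
theorem result (θ : ℝ) (hθ : 0 < θ) : ∃ δ : ℝ, 0 < δ ∧ ∀ z : ℕ → ℕ,
    (∃ᶠ k : ℕ in atTop, (k : ℝ) ^ θ ≤ z k) →
    Tendsto (fun k => Real.log (z k) / k) atTop (𝓝 0) →
    ∀ {Ω : Type*} [MeasurableSpace Ω] (μ : Measure Ω) [IsProbabilityMeasure μ] (A : ℕ → Set Ω),
      IsSievedModel μ z A →
      ∀ᵐ ω ∂μ, {n | ω ∈ A n}.Infinite ∧ ((1 + δ : ℝ) : EReal) ≤ cramerLimsup {n | ω ∈ A n} :=
  resA θ hθ

end Pool.Agent.Results.MP_ff81b6_nt.SievedModelAboveOne
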