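import Mathlib
import Pool.Agent.H318R2.Cr.ResB2

set_option autoImplicit false

namespace Pool.Agent.Results.MP_ff81b6_nt.SievedModelSmallLevel

open Filter Topology MeasureTheory ProbabilityTheory Pool.Agent.H318R2.Cr

/-- In the random model for the primes which first sieves by the primes up to a level `z` (a
function of the dyadic block), the Cramer constant is almost surely within `ε` of `1` as soon as
the level is eventually below a small enough power `(log x) ^ θ(ε)`. -/
theorem result (ε : ℝ) (hε : 0 < ε) : ∃ θ : ℝ, 0 < θ ∧ ∀ z : ℕ → ℕ,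
    (∀ᶠ k : ℕ in atTop, (z k : ℝ) ≤ (k : ℝ) ^ θ) →
    ∀ {Ω : Type*} [MeasurableSpace Ω] (μ : Measure Ω) [IsProbabilityMeasure μ] (A : ℕ → Set Ω),
      IsSievedModel μ z A →
      ∀ᵐ ω ∂μ, {n | ω ∈ A n}.Infinite ∧ (1 : EReal) ≤ cramerLimsup {n | ω ∈ A n} ∧
        cramerLimsup {n | ω ∈ A n} ≤ ((1 + ε : ℝ) : EReal) :=
  resB ε hε

end Pool.Agent.Results.MP_ff81b6_nt.SievedModelSmallLevel
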